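import Mathlib

/-!
# There is no symmetric linear (2,p,p)-AONT in standard form for primes p > 5
-/

set_option autoImplicit false

namespace Pool.Agent.Results.MP_e1f2d0_co.NoSymmetricAONT

open Finset

section Seq

/-- A `±1` sequence with `s (c + h) = - s c` cannot have vanishing negaperiodic autocorrelation at
the shifts `1` and `2`. -/
theorem no_sequence (h : ℕ) (s : ℕ → ℤ) (hs : ∀ c, s c = 1 ∨ s c = -1)
    (hanti : ∀ c, s (c + h) = - s c)
    (h1 : ∑ c ∈ range h, s c * s (c + 1) = 0)
    (h2 : ∑ c ∈ range h, s c * s (c + 2) = 0) : False := by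
  have hsq : ∀ c, s c * s c = 1 := by
    intro c; rcases hs c with h | h <;> rw [h] <;> norm_num
  -- 4 ∣ h
  have hshift : ∑ c ∈ range h, s (c + 1) * s (c + 2) = 0 := by
    have e1 := Finset.sum_range_succ' (fun c => s c * s (c + 1)) h
    have e2 := Finset.sum_range_succ (fun c => s c * s (c + 1)) h
    have e3 : s h * s (h + 1) = s 0 * s 1 := by
      have a := hanti 0
      have b := hanti 1
      rw [zero_add] at a
      rw [add_comm 1 h] at b
      rw [a, b]; ring
    simp only [zero_add] at e1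
    have e4 : ∑ c ∈ range h, s (c + 1) * s (c + 1 + 1) = ∑ c ∈ range h, s (c + 1) * s (c + 2) := rfl
    rw [e4] at e1
    linarith
  have hfour : (4 : ℤ) ∣ (h : ℤ) := by
    have e : ∑ c ∈ range h, (s c + s (c + 1)) * (s c + s (c + 2)) = (h : ℤ) := by
      have : ∀ c ∈ range h, (s c + s (c + 1)) * (s c + s (c + 2)) =
          1 + s c * s (c + 2) + s c * s (c + 1) + s (c + 1) * s (c + 2) := by
        intro c _
        rw [← hsq c]; ring
      rw [Finset.sum_congr rfl this, Finset.sum_add_distrib, Finset.sum_add_distrib,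
        Finset.sum_add_distrib, h1, h2, hshift]
      simp
    rw [← e]
    apply Finset.dvd_sum
    intro c _
    rcases hs c with a | a <;> rcases hs (c + 1) with b | b <;> rcases hs (c + 2) with d | d <;>
      rw [a, b, d] <;> norm_num
  -- the number of sign changes is odd
  have key : ∀ m : ℕ, ∃ k : ℕ, (∏ c ∈ range m, (s c * s (c + 1)) = (-1) ^ k) ∧
      (∑ c ∈ range m, s c * s (c + 1) = (m : ℤ) - 2 * k) := by
    intro m
    induction m with
    | zero => exact ⟨0, by simp, by simp⟩
    | succ m ih =>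
      obtain ⟨k, hk1, hk2⟩ := ih
      have : s m * s (m + 1) = 1 ∨ s m * s (m + 1) = -1 := by
        rcases hs m with a | a <;> rcases hs (m + 1) with b | b <;> rw [a, b] <;> norm_num
      rcases this with t | t
      · refine ⟨k, ?_, ?_⟩
        · rw [Finset.prod_range_succ, hk1, t, mul_one]
        · rw [Finset.sum_range_succ, hk2, t]; push_cast; ring
      · refine ⟨k + 1, ?_, ?_⟩
        · rw [Finset.prod_range_succ, hk1, t, pow_succ]
        · rw [Finset.sum_range_succ, hk2, t]; push_cast; ring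
  have hprod : ∀ m : ℕ, ∏ c ∈ range m, (s c * s (c + 1)) = s 0 * s m := by
    intro m
    induction m with
    | zero => simp [hsq]
    | succ m ih =>
      rw [Finset.prod_range_succ, ih]
      calc s 0 * s m * (s m * s (m + 1)) = s 0 * s (m + 1) * (s m * s m) := by ring
        _ = s 0 * s (m + 1) := by rw [hsq, mul_one]
  obtain ⟨k, hk1, hk2⟩ := key h
  rw [hprod h] at hk1
  have a := hanti 0
  rw [zero_add] at a
  rw [a] at hk1
  have hodd : (-1 : ℤ) ^ k = -1 := by
    rw [← hk1, mul_neg, hsq]
  have hk : Odd k := by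
    rcases Nat.even_or_odd k with h | h
    · rw [h.neg_one_pow] at hodd; norm_num at hodd
    · exact h
  rw [h1] at hk2
  obtain ⟨q, hq⟩ := hk
  obtain ⟨r, hr⟩ := hfour
  omega

end Seq

section Core

variable {V G : Type} [Fintype V] [DecidableEq V] [CommGroup G] [Fintype G] [DecidableEq G]

/-- The missing value of a row. -/
theorem exists_missing (hcard : Fintype.card V = Fintype.card G) (e : V → V → G)
    (H1 : ∀ i j k, i ≠ j → i ≠ k → j ≠ k → e i j ≠ e i k) (i : V) :
    ∃ μ : G, (∀ x, (∃ j, j ≠ i ∧ e i j = x) ↔ x ≠ μ) ∧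
      (∏ j ∈ univ.erase i, e i j) * μ = ∏ x : G, x := by
  classical
  have hinj : Set.InjOn (e i) (univ.erase i : Finset V) := by
    intro j hj k hk hjk
    by_contra hne
    rw [mem_coe, mem_erase] at hj hk
    exact H1 i j k (Ne.symm hj.1) (Ne.symm hk.1) hne hjk
  have hc : ((univ.erase i).image (e i)).card = Fintype.card G - 1 := by
    rw [Finset.card_image_of_injOn hinj, Finset.card_erase_of_mem (mem_univ _), card_univ, hcard]
  have hpos : 0 < Fintype.card G := Fintype.card_pos
  have hcc : (((univ.erase i).image (e i))ᶜ).card = 1 := by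
    rw [Finset.card_compl, hc]; omega
  obtain ⟨μ, hμ⟩ := Finset.card_eq_one.1 hcc
  refine ⟨μ, ?_, ?_⟩
  · intro x
    have : x ∈ ((univ.erase i).image (e i))ᶜ ↔ x = μ := by rw [hμ, mem_singleton]
    rw [mem_compl, mem_image] at this
    constructor
    · rintro ⟨j, hj, rfl⟩ hx
      exact (this.2 hx) ⟨j, by simp [hj], rfl⟩
    · intro hx
      by_contra hno
      apply hx
      apply this.1
      rintro ⟨j, hj, hjx⟩
      exact hno ⟨j, by simpa using hj, hjx⟩
  · rw [← Finset.prod_mul_prod_compl ((univ.erase i).image (e i)) (fun x => x), hμ,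
      Finset.prod_singleton, Finset.prod_image (fun a ha b hb hab => hinj ha hb hab)]

/-- The missing quotient of two rows. -/
theorem missing_quotient (hcard : Fintype.card V = Fintype.card G) (e : V → V → G)
    (symm : ∀ i j, e i j = e j i)
    (H1 : ∀ i j k, i ≠ j → i ≠ k → j ≠ k → e i j ≠ e i k)
    (H2 : ∀ i k j l, i ≠ k → j ≠ l → i ≠ j → i ≠ l → k ≠ j → k ≠ l →
      e i j * e k l ≠ e i l * e k j) (h : G) (hprod : ∏ x : G, x = h)
    (μ : V → G) (hμ : ∀ i, (∏ j ∈ univ.erase i, e i j) * μ i = h) (i k : V) (hik : i ≠ k) :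
    (∀ x, x ≠ 1 → ((∃ j, j ≠ i ∧ j ≠ k ∧ e i j = x * e k j) ↔ x ≠ h * μ i * (μ k)⁻¹)) ∧
      h * μ i * (μ k)⁻¹ ≠ 1 := by
  classical
  set q : V → G := fun j => e i j * (e k j)⁻¹ with hq
  set T : Finset V := (univ.erase i).erase k with hT
  have hmemT : ∀ j, j ∈ T ↔ j ≠ i ∧ j ≠ k := by
    intro j; simp [hT, and_comm]
  have hinj : Set.InjOn q T := by
    intro j hj l hl hjl
    rw [mem_coe, hmemT] at hj hl
    by_contra hne
    have : e i j * e k l = e i l * e k j := by
      have h1 : e i j * (e k j)⁻¹ = e i l * (e k l)⁻¹ := hjl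
      rw [mul_inv_eq_iff_eq_mul] at h1
      rw [h1]; group
      rw [mul_comm (e i l) _]
      have : (e k l) ^ (-1 : ℤ) * e i l * e k j * e k l = e i l * e k j := by
        rw [zpow_neg_one]
        calc (e k l)⁻¹ * e i l * e k j * e k l = (e k l)⁻¹ * e k l * (e i l * e k j) := by
              ac_rfl
          _ = e i l * e k j := by simp
      exact this
    exact H2 i k j l hik hne (Ne.symm hj.1) (Ne.symm hl.1) (Ne.symm hj.2) (Ne.symm hl.2) this
  have hne1 : ∀ j ∈ T, q j ≠ 1 := by
    intro j hj hj1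
    rw [hmemT] at hj
    have : e j i = e j k := by
      have : e i j = e k j := by
        have h1 : e i j * (e k j)⁻¹ = 1 := hj1
        rwa [mul_inv_eq_one] at h1
      rw [symm j i, symm j k, this]
    exact H1 j i k hj.1 hj.2 hik this
  have hTcard : T.card = Fintype.card G - 2 := by
    rw [hT, card_erase_of_mem (by simp [Ne.symm hik]), card_erase_of_mem (mem_univ _), card_univ,
      hcard]
    omega
  have h1not : (1 : G) ∉ T.image q := by
    intro h1
    obtain ⟨j, hj, hj1⟩ := mem_image.1 h1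
    exact hne1 j hj hj1
  have hcardG : 2 ≤ Fintype.card G := by
    rw [← hcard]
    have := Finset.card_le_univ ({i, k} : Finset V)
    rw [Finset.card_pair hik] at this
    exact this
  have hcc : ((insert 1 (T.image q))ᶜ).card = 1 := by
    rw [card_compl, card_insert_of_notMem h1not, card_image_of_injOn hinj, hTcard]; omega
  obtain ⟨d, hd⟩ := card_eq_one.1 hcc
  have hprodT : ∏ j ∈ T, q j = (μ k) * (μ i)⁻¹ := by
    have hi : ∏ j ∈ univ.erase i, e i j = e i k * ∏ j ∈ T, e i j := by
      rw [hT, Finset.mul_prod_erase _ _ (by simp [Ne.symm hik])]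
    have hk : ∏ j ∈ univ.erase k, e k j = e k i * ∏ j ∈ T, e k j := by
      rw [hT, Finset.erase_right_comm, Finset.mul_prod_erase _ _ (by simp [hik])]
    have e1 := hμ i
    have e2 := hμ k
    rw [hi] at e1
    rw [hk] at e2
    have e3 : ∏ j ∈ T, q j = (∏ j ∈ T, e i j) * (∏ j ∈ T, e k j)⁻¹ := by
      rw [hq, Finset.prod_mul_distrib, Finset.prod_inv_distrib]
    rw [e3]
    have e4 : ∏ j ∈ T, e i j = (e i k)⁻¹ * h * (μ i)⁻¹ := by
      rw [← e1]
      calc ∏ j ∈ T, e i j = ((e i k)⁻¹ * e i k) * (μ i * (μ i)⁻¹) * ∏ j ∈ T, e i j := by simp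
        _ = _ := by ac_rfl
    have e5 : ∏ j ∈ T, e k j = (e i k)⁻¹ * h * (μ k)⁻¹ := by
      rw [← e2, symm k i]
      calc ∏ j ∈ T, e k j = ((e i k)⁻¹ * e i k) * (μ k * (μ k)⁻¹) * ∏ j ∈ T, e k j := by simp
        _ = _ := by ac_rfl
    rw [e4, e5]
    simp only [mul_inv_rev, inv_inv]
    calc (e i k)⁻¹ * h * (μ i)⁻¹ * (μ k * (h⁻¹ * e i k))
        = ((e i k)⁻¹ * e i k) * (h * h⁻¹) * (μ k * (μ i)⁻¹) := by ac_rfl
      _ = μ k * (μ i)⁻¹ := by simp
  have hdval : d = h * μ i * (μ k)⁻¹ := by
    have e1 := Finset.prod_mul_prod_compl (insert 1 (T.image q)) (fun x : G => x)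
    rw [hd, prod_singleton, prod_insert h1not, one_mul,
      Finset.prod_image (fun a ha b hb hab => hinj ha hb hab), hprodT, hprod] at e1
    rw [← e1]
    calc d = (μ k * (μ k)⁻¹) * ((μ i)⁻¹ * μ i) * d := by simp
      _ = _ := by ac_rfl
  have hd1 : d ≠ 1 := by
    intro h1
    have : d ∈ (insert 1 (T.image q))ᶜ := by rw [hd]; simp
    rw [mem_compl, mem_insert, not_or] at this
    exact this.1 h1
  refine ⟨?_, hdval ▸ hd1⟩
  intro x hx
  rw [← hdval]
  have hx' : x ∈ (insert 1 (T.image q))ᶜ ↔ x = d := by rw [hd, mem_singleton]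
  rw [mem_compl, mem_insert, not_or, mem_image] at hx'
  constructor
  · rintro ⟨j, h1, h2, h3⟩ hxd
    apply (hx'.2 hxd).2
    refine ⟨j, (hmemT j).2 ⟨h1, h2⟩, ?_⟩
    simp only [hq]
    rw [h3]; simp
  · intro hxd
    by_contra hno
    apply hxd
    apply hx'.1
    refine ⟨hx, ?_⟩
    rintro ⟨j, hj, hjx⟩
    rw [hmemT] at hj
    apply hno
    refine ⟨j, hj.1, hj.2, ?_⟩
    rw [← hjx]; simp [hq]

omit [CommGroup G] [Fintype G] in
/-- Parity: the vertices incident with a fixed colour are even in number. -/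
theorem even_colour (e : V → V → G) (symm : ∀ i j, e i j = e j i)
    (H1 : ∀ i j k, i ≠ j → i ≠ k → j ≠ k → e i j ≠ e i k) (c : G) :
    Even (univ.filter (fun i : V => ∃ j, j ≠ i ∧ e i j = c)).card := by
  classical
  set P := univ.filter (fun i : V => ∃ j, j ≠ i ∧ e i j = c) with hP
  have hmem : ∀ i, i ∈ P ↔ ∃ j, j ≠ i ∧ e i j = c := by intro i; simp [hP]
  have hch : ∀ i, ∃ j, i ∈ P → (j ≠ i ∧ e i j = c) := by
    intro i
    by_cases hi : i ∈ P
    · obtain ⟨j, hj⟩ := (hmem i).1 hi
      exact ⟨j, fun _ => hj⟩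
    · exact ⟨i, fun h => absurd h hi⟩
  choose g hg using hch
  have hgm : ∀ i ∈ P, g i ∈ P := by
    intro i hi
    obtain ⟨h1, h2⟩ := hg i hi
    exact (hmem _).2 ⟨i, Ne.symm h1, by rw [symm]; exact h2⟩
  have hgg : ∀ i ∈ P, g (g i) = i := by
    intro i hi
    obtain ⟨h1, h2⟩ := hg i hi
    obtain ⟨h3, h4⟩ := hg (g i) (hgm i hi)
    by_contra hne
    apply H1 (g i) (g (g i)) i (Ne.symm h3) h1 hne
    rw [h4, symm, h2]
  have hsum : ∑ _i ∈ P, (1 : ZMod 2) = 0 := by
    apply Finset.sum_involution (fun a _ => g a)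
    · intro a _; decide
    · intro a ha _; exact (hg a ha).1
    · intro a ha; exact hgm a ha
    · intro a ha; exact hgg a ha
  rw [Finset.sum_const, nsmul_eq_mul, mul_one] at hsum
  exact (ZMod.natCast_eq_zero_iff_even).1 hsum

/-- The core of the argument: the missing values give a `±1` function with vanishing
autocorrelation. -/
theorem core (hcard : Fintype.card V = Fintype.card G) (heven : Even (Fintype.card G))
    (e : V → V → G) (symm : ∀ i j, e i j = e j i)
    (H1 : ∀ i j k, i ≠ j → i ≠ k → j ≠ k → e i j ≠ e i k)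
    (H2 : ∀ i k j l, i ≠ k → j ≠ l → i ≠ j → i ≠ l → k ≠ j → k ≠ l →
      e i j * e k l ≠ e i l * e k j) (h : G) (hprod : ∏ x : G, x = h)
    (hne : h ≠ 1) :
    ∃ f : G → ℤ, (∀ x, f x = 1 ∨ f x = -1) ∧ (∀ x, f (x * h) = - f x) ∧
      ∀ r, r ≠ 1 → r ≠ h → ∑ x, f x * f (x * r) = 0 := by
  classical
  choose μ hμ1 hμ2 using exists_missing hcard e H1
  rw [hprod] at hμ2
  have hq := missing_quotient hcard e symm H1 H2 h hprod μ hμ2
  set n : ℤ := (Fintype.card V : ℤ) with hn
  -- counting in a row
  have row : ∀ (j : V) (x : G), ∑ i : V, (if i ≠ j ∧ e j i = x then (1 : ℤ) else 0) =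
      if x = μ j then 0 else 1 := by
    intro j x
    by_cases hx : x = μ j
    · rw [if_pos hx]
      apply Finset.sum_eq_zero
      intro i _
      rw [if_neg]
      rintro ⟨h1, h2⟩
      exact ((hμ1 j x).1 ⟨i, h1, h2⟩) hx
    · rw [if_neg hx]
      obtain ⟨i, h1, h2⟩ := (hμ1 j x).2 hx
      rw [Finset.sum_eq_single i, if_pos ⟨h1, h2⟩]
      · intro l _ hl
        rw [if_neg]
        rintro ⟨h3, h4⟩
        exact H1 j l i (Ne.symm h3) (Ne.symm h1) hl (h4.trans h2.symm)
      · intro h; exact absurd (mem_univ _) h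
  have cnt1 : ∀ j : V, ∑ k : V, (if k = j then (0 : ℤ) else 1) = n - 1 := by
    intro j
    have : ∀ k : V, (if k = j then (0 : ℤ) else 1) = 1 - (if k = j then 1 else 0) := by
      intro k; split_ifs <;> norm_num
    rw [Finset.sum_congr rfl (fun k _ => this k), Finset.sum_sub_distrib]
    simp [hn]
  -- the double counting
  have N : ∀ r : G, r ≠ 1 →
      ∑ i : V, ∑ k : V, (if i ≠ k ∧ h * μ i * (μ k)⁻¹ = r then (1 : ℤ) else 0) = n := by
    intro r hr
    have S1 : ∑ i : V, ∑ k : V, ∑ j : V,
        (if i ≠ k ∧ j ≠ i ∧ j ≠ k ∧ e i j = r * e k j then (1 : ℤ) else 0) =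
        ∑ i : V, ∑ k : V, ((if k = i then (0 : ℤ) else 1) -
          (if i ≠ k ∧ h * μ i * (μ k)⁻¹ = r then (1 : ℤ) else 0)) := by
      apply Finset.sum_congr rfl; intro i _
      apply Finset.sum_congr rfl; intro k _
      by_cases hik : i = k
      · subst hik; simp
      · rw [if_neg (Ne.symm hik)]
        obtain ⟨hq1, -⟩ := hq i k hik
        by_cases hx : h * μ i * (μ k)⁻¹ = r
        · rw [if_pos ⟨hik, hx⟩, sub_self]
          apply Finset.sum_eq_zero
          intro j _
          rw [if_neg]
          rintro ⟨-, h1, h2, h3⟩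
          exact (hq1 r hr).1 ⟨j, h1, h2, h3⟩ hx.symm
        · rw [if_neg (fun h => hx h.2), sub_zero]
          obtain ⟨j, h1, h2, h3⟩ := (hq1 r hr).2 (Ne.symm hx)
          rw [Finset.sum_eq_single j, if_pos ⟨hik, h1, h2, h3⟩]
          · intro l _ hl
            rw [if_neg]
            rintro ⟨-, h4, h5, h6⟩
            apply H2 i k j l hik (Ne.symm hl) (Ne.symm h1) (Ne.symm h4) (Ne.symm h2) (Ne.symm h5)
            rw [h3, h6]; ac_rfl
          · intro h; exact absurd (mem_univ _) h
    have S2 : ∑ i : V, ∑ k : V, ∑ j : V,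
        (if i ≠ k ∧ j ≠ i ∧ j ≠ k ∧ e i j = r * e k j then (1 : ℤ) else 0) = n * (n - 2) := by
      have sw : ∑ i : V, ∑ k : V, ∑ j : V,
        (if i ≠ k ∧ j ≠ i ∧ j ≠ k ∧ e i j = r * e k j then (1 : ℤ) else 0) =
        ∑ j : V, ∑ k : V, ∑ i : V,
        (if i ≠ k ∧ j ≠ i ∧ j ≠ k ∧ e i j = r * e k j then (1 : ℤ) else 0) := by
        rw [Finset.sum_comm]
        rw [Finset.sum_congr rfl (fun k _ => Finset.sum_comm)]
        rw [Finset.sum_comm]
      rw [sw]
      have inner : ∀ j : V, ∑ k : V, ∑ i : V,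
        (if i ≠ k ∧ j ≠ i ∧ j ≠ k ∧ e i j = r * e k j then (1 : ℤ) else 0) = n - 2 := by
        intro j
        have : ∀ k : V, ∑ i : V,
          (if i ≠ k ∧ j ≠ i ∧ j ≠ k ∧ e i j = r * e k j then (1 : ℤ) else 0) =
          (if k = j then (0 : ℤ) else 1) -
            (if k ≠ j ∧ e j k = r⁻¹ * μ j then (1 : ℤ) else 0) := by
          intro k
          by_cases hk : k = j
          · subst hk; simp
          · rw [if_neg hk]
            have e1 : ∀ i : V, (if i ≠ k ∧ j ≠ i ∧ j ≠ k ∧ e i j = r * e k j then (1 : ℤ) else 0) =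
                (if i ≠ j ∧ e j i = r * e j k then (1 : ℤ) else 0) := by
              intro i
              apply if_congr _ rfl rfl
              rw [symm i j, symm k j]
              constructor
              · rintro ⟨_, h2, _, h4⟩; exact ⟨Ne.symm h2, h4⟩
              · rintro ⟨h1, h2⟩
                refine ⟨?_, Ne.symm h1, Ne.symm hk, h2⟩
                rintro rfl
                apply hr
                have : e j i * 1 = r * e j i := by rw [mul_one]; exact h2
                rw [mul_comm r] at this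
                exact (mul_left_cancel this).symm
            rw [Finset.sum_congr rfl (fun i _ => e1 i), row]
            have e2 : (r * e j k = μ j) ↔ (k ≠ j ∧ e j k = r⁻¹ * μ j) := by
              constructor
              · intro h1; exact ⟨hk, by rw [← h1]; simp⟩
              · rintro ⟨-, h1⟩; rw [h1]; simp
            by_cases hc : r * e j k = μ j
            · rw [if_pos hc, if_pos (e2.1 hc)]; norm_num
            · rw [if_neg hc, if_neg (fun h => hc (e2.2 h))]; norm_num
        rw [Finset.sum_congr rfl (fun k _ => this k), Finset.sum_sub_distrib, cnt1, row,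
          if_neg]
        · ring
        · intro h1
          apply hr
          have : r⁻¹ * μ j = 1 * μ j := by rw [h1, one_mul]
          have := mul_right_cancel this
          rwa [inv_eq_one] at this
      rw [Finset.sum_congr rfl (fun j _ => inner j)]
      simp [hn]
      ring
    rw [S1] at S2
    have e3 : ∑ i : V, ∑ k : V, ((if k = i then (0 : ℤ) else 1) -
          (if i ≠ k ∧ h * μ i * (μ k)⁻¹ = r then (1 : ℤ) else 0)) = n * (n - 1) -
        ∑ i : V, ∑ k : V, (if i ≠ k ∧ h * μ i * (μ k)⁻¹ = r then (1 : ℤ) else 0) := by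
      rw [Finset.sum_congr rfl (fun i _ => Finset.sum_sub_distrib _ _), Finset.sum_sub_distrib,
        Finset.sum_congr rfl (fun i _ => cnt1 i)]
      simp [hn]
      ring
    rw [e3] at S2
    linarith
  -- the multiplicities
  set b : G → ℤ := fun x => ∑ i : V, (if μ i = x then (1 : ℤ) else 0) with hb
  have hbcard : ∀ x, b x = ((univ.filter (fun i : V => μ i = x)).card : ℤ) := by
    intro x; simp [hb]
  have hbnn : ∀ x, 0 ≤ b x := by intro x; rw [hbcard]; positivity
  have hbev : ∀ x, ∃ m : ℤ, b x = 2 * m := by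
    intro x
    have h1 := even_colour e symm H1 x
    have h2 : univ.filter (fun i : V => ∃ j, j ≠ i ∧ e i j = x) =
        (univ.filter (fun i : V => μ i = x))ᶜ := by
      ext i
      rw [mem_filter, mem_compl, mem_filter, hμ1 i x]
      constructor
      · rintro ⟨-, h⟩ ⟨-, h'⟩; exact h h'.symm
      · intro h; exact ⟨mem_univ _, fun h' => h ⟨mem_univ _, h'.symm⟩⟩
    rw [h2, Finset.card_compl] at h1
    rw [← hcard] at heven
    have hle := Finset.card_le_univ (univ.filter (fun i : V => μ i = x))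
    obtain ⟨a, ha⟩ := h1
    obtain ⟨c, hc⟩ := heven
    refine ⟨(c : ℤ) - a, ?_⟩
    rw [hbcard]
    omega
  have hbsum : ∑ x, b x = n := by
    simp only [hb]
    rw [Finset.sum_comm]
    simp [hn]
  have hA : ∀ r : G, ∑ x, b x * b (x * r) =
      ∑ i : V, ∑ k : V, (if μ k = μ i * r then (1 : ℤ) else 0) := by
    intro r
    simp only [hb]
    have : ∀ x : G, (∑ i : V, (if μ i = x then (1 : ℤ) else 0)) *
        (∑ k : V, (if μ k = x * r then (1 : ℤ) else 0)) =
        ∑ i : V, ∑ k : V, (if μ i = x then (if μ k = x * r then (1 : ℤ) else 0) else 0) := by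
      intro x
      rw [Finset.sum_mul_sum]
      apply Finset.sum_congr rfl; intro i _
      apply Finset.sum_congr rfl; intro k _
      split_ifs <;> simp
    rw [Finset.sum_congr rfl (fun x _ => this x), Finset.sum_comm]
    apply Finset.sum_congr rfl; intro i _
    rw [Finset.sum_comm]
    apply Finset.sum_congr rfl; intro k _
    rw [Finset.sum_eq_single (μ i)]
    · simp
    · intro x _ hx; rw [if_neg (Ne.symm hx)]
    · intro h; exact absurd (mem_univ _) h
  have hA1 : ∀ r : G, r ≠ 1 → r ≠ h → ∑ x, b x * b (x * r) = n := by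
    intro r hr1 hrh
    rw [hA, ← N (h * r⁻¹)]
    · apply Finset.sum_congr rfl; intro i _
      apply Finset.sum_congr rfl; intro k _
      apply if_congr _ rfl rfl
      constructor
      · intro h1
        refine ⟨?_, ?_⟩
        · rintro rfl
          apply hr1
          have : μ i * 1 = μ i * r := by rw [mul_one]; exact h1
          exact (mul_left_cancel this).symm
        · rw [h1, mul_inv, mul_assoc]
          congr 1
          simp
      · rintro ⟨-, h1⟩
        rw [mul_assoc] at h1
        have h2 := mul_left_cancel h1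
        rw [mul_inv_eq_iff_eq_mul] at h2
        rw [h2]
        calc μ k = (r⁻¹ * r) * μ k := by simp
          _ = r⁻¹ * μ k * r := by ac_rfl
    · intro h1
      apply hrh
      rw [mul_inv_eq_one] at h1
      exact h1.symm
  have hAone : ∑ x, b x * b x = 2 * n := by
    have h1 := hA 1
    simp only [mul_one] at h1
    rw [h1]
    have h2 := N h hne
    have : ∀ i : V, ∑ k : V, (if μ k = μ i then (1 : ℤ) else 0) =
        1 + ∑ k : V, (if i ≠ k ∧ h * μ i * (μ k)⁻¹ = h then (1 : ℤ) else 0) := by
      intro i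
      rw [← Finset.add_sum_erase univ _ (mem_univ i), if_pos rfl,
        ← Finset.add_sum_erase univ (fun k => (if i ≠ k ∧ h * μ i * (μ k)⁻¹ = h then (1 : ℤ) else 0))
          (mem_univ i)]
      simp only [ne_eq, not_true_eq_false, false_and, if_false, zero_add]
      congr 1
      apply Finset.sum_congr rfl; intro k hk
      rw [mem_erase] at hk
      apply if_congr _ rfl rfl
      constructor
      · intro h1; exact ⟨fun h => hk.1 h.symm, by rw [h1]; simp⟩
      · rintro ⟨-, h1⟩
        have : h * (μ i * (μ k)⁻¹) = h * 1 := by rw [mul_one, ← mul_assoc]; exact h1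
        have := mul_left_cancel this
        rw [mul_inv_eq_one] at this
        exact this.symm
    rw [Finset.sum_congr rfl (fun i _ => this i), Finset.sum_add_distrib, h2]
    simp [hn]
    ring
  have hAh : ∑ x, b x * b (x * h) = 0 := by
    rw [hA]
    apply Finset.sum_eq_zero; intro i _
    apply Finset.sum_eq_zero; intro k _
    rw [if_neg]
    intro h1
    by_cases hik : i = k
    · subst hik
      apply hne
      have : μ i * 1 = μ i * h := by rw [mul_one]; exact h1
      exact (mul_left_cancel this).symm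
    · apply (hq i k hik).2
      rw [h1, mul_comm (μ i) h]
      simp
  -- values in {0, 2}
  have hb02 : ∀ x, b x = 0 ∨ b x = 2 := by
    have hz : ∑ x, b x * (b x - 2) = 0 := by
      have : ∀ x, b x * (b x - 2) = b x * b x - 2 * b x := by intro x; ring
      rw [Finset.sum_congr rfl (fun x _ => this x), Finset.sum_sub_distrib, hAone,
        ← Finset.mul_sum, hbsum]
      ring
    have hnn : ∀ x ∈ (univ : Finset G), 0 ≤ b x * (b x - 2) := by
      intro x _
      obtain ⟨m, hm⟩ := hbev x
      have := hbnn x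
      rcases le_or_gt m 0 with h0 | h0
      · have : b x = 0 := by omega
        rw [this]; norm_num
      · apply mul_nonneg this; omega
    intro x
    have := (Finset.sum_eq_zero_iff_of_nonneg hnn).1 hz x (mem_univ x)
    rcases mul_eq_zero.1 this with h | h
    · exact Or.inl h
    · right; linarith
  have hbh : ∀ x, b x + b (x * h) = 2 := by
    have hprod0 : ∀ x, b x * b (x * h) = 0 := by
      intro x
      exact (Finset.sum_eq_zero_iff_of_nonneg
        (fun x _ => mul_nonneg (hbnn x) (hbnn (x * h)))).1 hAh x (mem_univ x)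
    have hs : ∑ x, b (x * h) = n := by
      rw [← hbsum]
      exact Fintype.sum_equiv (Equiv.mulRight h) _ _ (fun x => rfl)
    have hz : ∑ x, (2 - (b x + b (x * h))) = 0 := by
      rw [Finset.sum_sub_distrib, Finset.sum_add_distrib, hbsum, hs]
      simp [hn, hcard]
      ring
    have hnn : ∀ x ∈ (univ : Finset G), 0 ≤ 2 - (b x + b (x * h)) := by
      intro x _
      have h0 := hprod0 x
      rcases hb02 x with h1 | h1 <;> rcases hb02 (x * h) with h2 | h2
      · omega
      · omega
      · omega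
      · rw [h1, h2] at h0; norm_num at h0
    intro x
    have := (Finset.sum_eq_zero_iff_of_nonneg hnn).1 hz x (mem_univ x)
    linarith
  refine ⟨fun x => b x - 1, ?_, ?_, ?_⟩
  · intro x
    rcases hb02 x with h | h
    · right; show b x - 1 = -1; rw [h]; norm_num
    · left; show b x - 1 = 1; rw [h]; norm_num
  · intro x
    have := hbh x
    show b (x * h) - 1 = -(b x - 1)
    linarith
  · intro r hr1 hrh
    have hs : ∑ x, b (x * r) = n := by
      rw [← hbsum]
      exact Fintype.sum_equiv (Equiv.mulRight r) _ _ (fun x => rfl)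
    have : ∀ x, (b x - 1) * (b (x * r) - 1) = b x * b (x * r) - b x - b (x * r) + 1 := by
      intro x; ring
    show ∑ x, (b x - 1) * (b (x * r) - 1) = 0
    rw [Finset.sum_congr rfl (fun x _ => this x), Finset.sum_add_distrib, Finset.sum_sub_distrib,
      Finset.sum_sub_distrib, hA1 r hr1 hrh, hbsum, hs]
    simp [hn, hcard]

end Core

section TypeB

variable {V G : Type} [Fintype V] [DecidableEq V] [CommGroup G] [Fintype G] [DecidableEq G]

/-- The last diagonal entry must be zero. -/
theorem typeB_false (hcard : Fintype.card V = Fintype.card G) (heven : Even (Fintype.card G))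
    (e : V → V → G) (symm : ∀ i j, e i j = e j i)
    (H1 : ∀ i j k, i ≠ j → i ≠ k → j ≠ k → e i j ≠ e i k)
    (H2 : ∀ i k j l, i ≠ k → j ≠ l → i ≠ j → i ≠ l → k ≠ j → k ≠ l →
      e i j * e k l ≠ e i l * e k j) (L : V)
    (HL : ∀ j, j ≠ L → e L j ≠ e L L)
    (HL2 : ∀ i j, i ≠ L → j ≠ L → i ≠ j → e i j * e L L ≠ e i L * e L j)
    (h : G) (hprod : ∏ x : G, x = h) (hcard3 : 3 ≤ Fintype.card V) : False := by
  classical
  choose μ hμ1 hμ2 using exists_missing hcard e H1
  rw [hprod] at hμ2
  -- the last row is a bijection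
  have hLinj : Function.Injective (e L) := by
    intro j k hjk
    by_contra hne
    by_cases hj : j = L
    · subst hj
      exact HL k (Ne.symm hne) hjk.symm
    · by_cases hk : k = L
      · subst hk; exact HL j hj hjk
      · exact H1 L j k (Ne.symm hj) (Ne.symm hk) hne hjk
  have hLbij : Function.Bijective (e L) :=
    (Fintype.bijective_iff_injective_and_card _).2 ⟨hLinj, hcard⟩
  have hLprod : ∏ j : V, e L j = h := by
    rw [← hprod]
    exact Fintype.prod_bijective (e L) hLbij _ _ (fun _ => rfl)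
  have hval : ∀ i, i ≠ L → e L i = h * μ i := by
    intro i hi
    set q : V → G := fun j => e i j * (e L j)⁻¹ with hq
    have hinj : Set.InjOn q (univ.erase i : Finset V) := by
      intro j hj l hl hjl
      rw [mem_coe, mem_erase] at hj hl
      by_contra hne
      have h1 : e i j * (e L j)⁻¹ = e i l * (e L l)⁻¹ := hjl
      have h2 : e i j * e L l = e i l * e L j := by
        calc e i j * e L l = (e i j * (e L j)⁻¹) * (e L j * e L l) := by simp [mul_assoc]
          _ = (e i l * (e L l)⁻¹) * (e L j * e L l) := by rw [h1]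
          _ = e i l * e L j * ((e L l)⁻¹ * e L l) := by ac_rfl
          _ = e i l * e L j := by simp
      by_cases hjL : j = L
      · subst hjL
        exact HL2 i l hi (Ne.symm hne) (Ne.symm hl.1) h2.symm
      · by_cases hlL : l = L
        · subst hlL
          exact HL2 i j hi hjL (Ne.symm hj.1) h2
        · exact H2 i L j l hi hne (Ne.symm hj.1) (Ne.symm hl.1) (Ne.symm hjL) (Ne.symm hlL) h2
    have h1not : (1 : G) ∉ (univ.erase i).image q := by
      intro h1
      obtain ⟨j, hj, hj1⟩ := mem_image.1 h1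
      rw [mem_erase] at hj
      have h2 : e i j = e L j := by
        have : e i j * (e L j)⁻¹ = 1 := hj1
        rwa [mul_inv_eq_one] at this
      by_cases hjL : j = L
      · subst hjL
        rw [symm i j] at h2
        exact HL i hi h2
      · apply H1 j i L hj.1 hjL hi
        rw [symm j i, symm j L, h2]
    have hfull : insert 1 ((univ.erase i).image q) = univ := by
      apply Finset.eq_univ_of_card
      rw [card_insert_of_notMem h1not, card_image_of_injOn hinj, card_erase_of_mem (mem_univ _),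
        card_univ, hcard]
      have : 0 < Fintype.card G := Fintype.card_pos
      omega
    have e1 : ∏ j ∈ univ.erase i, q j = h := by
      rw [← hprod, ← hfull, prod_insert h1not, one_mul,
        Finset.prod_image (fun a ha b hb hab => hinj ha hb hab)]
    have e2 : ∏ j ∈ univ.erase i, q j =
        (∏ j ∈ univ.erase i, e i j) * (∏ j ∈ univ.erase i, e L j)⁻¹ := by
      rw [hq, Finset.prod_mul_distrib, Finset.prod_inv_distrib]
    have e3 : e L i * ∏ j ∈ univ.erase i, e L j = h := by
      rw [Finset.mul_prod_erase _ _ (mem_univ i), hLprod]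
    have e4 := hμ2 i
    rw [e1] at e2
    have e5 : ∏ j ∈ univ.erase i, e i j = h * ∏ j ∈ univ.erase i, e L j := by
      exact (eq_mul_inv_iff_mul_eq.1 e2).symm
    rw [e5] at e4
    have e6 : (∏ j ∈ univ.erase i, e L j) * μ i = 1 := by
      have : h * ((∏ j ∈ univ.erase i, e L j) * μ i) = h * 1 := by
        rw [mul_one, ← mul_assoc]; exact e4
      exact mul_left_cancel this
    calc e L i = e L i * ((∏ j ∈ univ.erase i, e L j) * μ i) := by rw [e6, mul_one]
      _ = (e L i * ∏ j ∈ univ.erase i, e L j) * μ i := by rw [mul_assoc]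
      _ = h * μ i := by rw [e3]
  have hμinj : ∀ i k, i ≠ L → k ≠ L → μ i = μ k → i = k := by
    intro i k hi hk hik
    apply hLinj
    rw [hval i hi, hval k hk, hik]
  have hμL : μ L = e L L := by
    by_contra hne
    obtain ⟨j, hj, hjL⟩ := (hμ1 L (e L L)).2 (Ne.symm hne)
    exact HL j hj hjL
  have hall : ∀ i, i ≠ L → μ i = e L L := by
    intro i hi
    by_contra hne
    have h1 := even_colour e symm H1 (μ i)
    have h2 : univ.filter (fun k : V => ∃ j, j ≠ k ∧ e k j = μ i) = ({i} : Finset V)ᶜ := by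
      ext k
      rw [mem_filter, mem_compl, mem_singleton, hμ1 k (μ i)]
      constructor
      · rintro ⟨-, h⟩ rfl; exact h rfl
      · intro hk
        refine ⟨mem_univ _, fun h' => hk ?_⟩
        by_cases hkL : k = L
        · subst hkL
          exact absurd (h'.trans hμL) hne
        · exact hμinj k i hkL hi h'.symm
    rw [h2, card_compl, card_singleton, hcard] at h1
    have : 0 < Fintype.card G := Fintype.card_pos
    obtain ⟨a, ha⟩ := h1
    obtain ⟨b, hb⟩ := heven
    omega
  -- two vertices different from `L`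
  have hcc : 2 ≤ (univ.erase L).card := by
    rw [card_erase_of_mem (mem_univ _), card_univ]; omega
  obtain ⟨i, hi, k, hk, hik⟩ := Finset.one_lt_card.1 (lt_of_lt_of_le (by norm_num) hcc)
  rw [mem_erase] at hi hk
  exact hik (hμinj i k hi.1 hk.1 ((hall i hi.1).trans (hall k hk.1).symm))

end TypeB

section Cyclic

/-- No `±1` function with these autocorrelations exists on the unit group of `ZMod p`. -/
theorem cyclic_false {p : ℕ} [Fact p.Prime] (hp5 : 5 < p) (f : (ZMod p)ˣ → ℤ)
    (hf : ∀ x, f x = 1 ∨ f x = -1) (hanti : ∀ x, f (x * (-1)) = - f x)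
    (hA : ∀ r, r ≠ 1 → r ≠ -1 → ∑ x, f x * f (x * r) = 0) : False := by
  classical
  obtain ⟨γ, hγ⟩ := IsCyclic.exists_generator (α := (ZMod p)ˣ)
  have hpp : p.Prime := Fact.out
  have hord : orderOf γ = p - 1 := by
    rw [orderOf_eq_card_of_forall_mem_zpowers hγ, Nat.card_eq_fintype_card, ZMod.card_units]
  have hpodd : p % 2 = 1 := by
    rcases hpp.eq_two_or_odd with h | h
    · omega
    · exact h
  obtain ⟨m, hm⟩ : ∃ m, p - 1 = 2 * m := ⟨(p - 1) / 2, by omega⟩
  have hm3 : 3 ≤ m := by omega
  have hγm : γ ^ m = -1 := by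
    have h1 : γ ^ m * γ ^ m = 1 := by
      rw [← pow_add, ← two_mul, ← hm, ← hord, pow_orderOf_eq_one]
    have h2 : γ ^ m ≠ 1 := by
      intro h
      have := orderOf_dvd_of_pow_eq_one h
      rw [hord, hm] at this
      have := Nat.le_of_dvd (by omega) this
      omega
    have h3 : ((γ ^ m : (ZMod p)ˣ) : ZMod p) * ((γ ^ m : (ZMod p)ˣ) : ZMod p) = 1 := by
      rw [← Units.val_mul, h1, Units.val_one]
    rcases mul_self_eq_one_iff.1 h3 with h | h
    · exact absurd (Units.ext h) h2
    · apply Units.ext; rw [h]; simp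
  have hne : ∀ k : ℕ, 0 < k → k < 2 * m → γ ^ k ≠ 1 := by
    intro k hk hk2 h
    have := orderOf_dvd_of_pow_eq_one h
    rw [hord, hm] at this
    have := Nat.le_of_dvd hk this
    omega
  have hnem : ∀ k : ℕ, 0 < k → k < m → γ ^ k ≠ -1 := by
    intro k hk hkm h
    apply hne (k + k) (by omega) (by omega)
    rw [pow_add, h]; simp
  have hsum : ∀ F : (ZMod p)ˣ → ℤ, ∑ x, F x = ∑ c ∈ range (2 * m), F (γ ^ c) := by
    intro F
    have h1 : (range (2 * m)).image (fun c => γ ^ c) = univ := by
      rw [← hm, ← hord]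
      have := IsCyclic.image_range_orderOf hγ
      exact this
    rw [← h1, Finset.sum_image]
    intro a ha b hb hab
    rw [mem_coe, mem_range, ← hm, ← hord] at ha hb
    exact pow_injOn_Iio_orderOf ha hb hab
  have hhalf : ∀ k : ℕ, k = 1 ∨ k = 2 →
      ∑ c ∈ range m, f (γ ^ c) * f (γ ^ (c + k)) = 0 := by
    intro k hk
    have h1 := hA (γ ^ k) (hne k (by omega) (by omega)) (hnem k (by omega) (by omega))
    rw [hsum, two_mul, Finset.sum_range_add] at h1
    have h2 : ∀ c, f (γ ^ (m + c)) * f (γ ^ (m + c) * γ ^ k) = f (γ ^ c) * f (γ ^ c * γ ^ k) := by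
      intro c
      have e1 : γ ^ (m + c) = γ ^ c * (-1) := by rw [pow_add, hγm, mul_comm]
      have e2 : γ ^ (m + c) * γ ^ k = (γ ^ c * γ ^ k) * (-1) := by rw [e1]; ac_rfl
      rw [e2, hanti, e1, hanti]; ring
    rw [Finset.sum_congr rfl (fun c _ => h2 c)] at h1
    have h3 : ∀ c, f (γ ^ c) * f (γ ^ (c + k)) = f (γ ^ c) * f (γ ^ c * γ ^ k) := by
      intro c; rw [pow_add]
    rw [Finset.sum_congr rfl (fun c _ => h3 c)]
    linarith
  apply no_sequence m (fun c => f (γ ^ c)) (fun c => hf _) ?_ (hhalf 1 (Or.inl rfl))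
    (hhalf 2 (Or.inr rfl))
  intro c
  show f (γ ^ (c + m)) = - f (γ ^ c)
  rw [pow_add, hγm, hanti]

end Cyclic

/-- A linear `(t, s, p)`-all-or-nothing transform: an invertible `s × s` matrix over `𝔽_p`, all of
whose `t × t` submatrices (choose `t` rows and `t` columns) are invertible. -/
def IsLinearAONT {p : ℕ} (t s : ℕ) (M : Matrix (Fin s) (Fin s) (ZMod p)) : Prop :=
  IsUnit M ∧ ∀ r c : Fin t ↪o Fin s, IsUnit (M.submatrix r c)

/-- Standard form (rows and columns are numbered from `0` to `p - 1`): the corner entry is `0`, the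
other entries of the first row and of the first column are `1`, and all diagonal entries, except
possibly the last one, are `0`. -/
structure IsStandard {p : ℕ} (M : Matrix (Fin p) (Fin p) (ZMod p)) : Prop where
  corner : ∀ i, i.val = 0 → M i i = 0
  row : ∀ i j, i.val = 0 → j.val ≠ 0 → M i j = 1
  col : ∀ i j, i.val ≠ 0 → j.val = 0 → M i j = 1
  diag : ∀ i, i.val ≠ 0 → i.val + 1 ≠ p → M i i = 0

/-- **Negative answer to Q1.**  For no prime `p > 5` is there a symmetric linear
`(2, p, p)`-AONT in standard form. -/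
theorem result : ¬ ∃ p : ℕ, p.Prime ∧ 5 < p ∧
    ∃ M : Matrix (Fin p) (Fin p) (ZMod p), IsLinearAONT 2 p M ∧ IsStandard M ∧ M.IsSymm := by
  classical
  rintro ⟨p, hp, hp5, M, ⟨-, hminor⟩, hstd, hsym⟩
  have hF0 : Fact p.Prime := ⟨hp⟩
  have hsymm : ∀ i j, M i j = M j i := fun i j => (congrFun (congrFun hsym i) j).symm
  -- the minors
  have mono : ∀ a b : Fin p, a < b → StrictMono ![a, b] := by
    intro a b hab
    intro x y hxy
    fin_cases x <;> fin_cases y
    · exact absurd hxy (lt_irrefl _)
    · simpa using hab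
    · exact absurd hxy (by decide)
    · exact absurd hxy (lt_irrefl _)
  have minor' : ∀ i k j l : Fin p, i < k → j < l → M i j * M k l ≠ M i l * M k j := by
    intro i k j l hik hjl h
    have h1 := hminor (OrderEmbedding.ofStrictMono _ (mono i k hik))
      (OrderEmbedding.ofStrictMono _ (mono j l hjl))
    rw [Matrix.isUnit_iff_isUnit_det, isUnit_iff_ne_zero, Matrix.det_fin_two] at h1
    apply h1
    simp [h]
  have minor : ∀ i k j l : Fin p, i ≠ k → j ≠ l → M i j * M k l ≠ M i l * M k j := by
    intro i k j l hik hjl h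
    rcases lt_or_gt_of_ne hik with a | a <;> rcases lt_or_gt_of_ne hjl with b | b
    · exact minor' i k j l a b h
    · exact minor' i k l j a b h.symm
    · apply minor' k i j l a b; rw [mul_comm, mul_comm (M k l)]; exact h.symm
    · apply minor' k i l j a b; rw [mul_comm, mul_comm (M k j)]; exact h
  have z0 : (⟨0, hp.pos⟩ : Fin p).val = 0 := rfl
  -- distinct entries in a row
  have dist : ∀ i j k : Fin p, i.val ≠ 0 → j.val ≠ 0 → k.val ≠ 0 → j ≠ k → M i j ≠ M i k := by
    intro i j k hi hj hk hjk h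
    have := minor ⟨0, hp.pos⟩ i j k (fun h => hi (by rw [← h])) hjk
    rw [hstd.row _ j z0 hj, hstd.row _ k z0 hk, one_mul, one_mul] at this
    exact this h.symm
  have nz : ∀ i j : Fin p, i.val ≠ 0 → j.val ≠ 0 → i ≠ j → M i j ≠ 0 := by
    intro i j hi hj hij
    by_cases h : i.val + 1 = p
    · have hj' : j.val + 1 ≠ p := fun h' => hij (Fin.ext (by omega))
      rw [hsymm, ← hstd.diag j hj hj']
      exact dist j i j hj hi hj hij
    · rw [← hstd.diag i hi h]
      exact dist i j i hi hj hi (Ne.symm hij)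
  -- the vertices
  let V := {i : Fin p // i.val ≠ 0}
  have hcardG : Fintype.card (ZMod p)ˣ = p - 1 := ZMod.card_units p
  have hcardV : Fintype.card V = p - 1 := by
    have h1 : Fintype.card V = Fintype.card (Fin p) - Fintype.card {i : Fin p // i.val = 0} := by
      rw [← Fintype.card_subtype_compl]
    have h2 : Fintype.card {i : Fin p // i.val = 0} = 1 := by
      rw [Fintype.card_eq_one_iff]
      exact ⟨⟨⟨0, hp.pos⟩, rfl⟩, fun y => Subtype.ext (Fin.ext y.2)⟩
    rw [h1, h2, Fintype.card_fin]
  have hcard : Fintype.card V = Fintype.card (ZMod p)ˣ := by rw [hcardV, hcardG]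
  have hodd : p % 2 = 1 := by
    rcases hp.eq_two_or_odd with h | h
    · omega
    · exact h
  have heven : Even (Fintype.card (ZMod p)ˣ) := by
    rw [hcardG]; exact ⟨(p - 1) / 2, by omega⟩
  let e : V → V → (ZMod p)ˣ := fun i j => if h : M i.1 j.1 ≠ 0 then Units.mk0 _ h else 1
  have hev : ∀ i j : V, M i.1 j.1 ≠ 0 → ((e i j : (ZMod p)ˣ) : ZMod p) = M i.1 j.1 := by
    intro i j h
    simp only [e]
    rw [dif_pos h]; rfl
  have hvne : ∀ {i j : V}, i ≠ j → i.1 ≠ j.1 := fun h h' => h (Subtype.ext h')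
  have hnz : ∀ i j : V, i ≠ j → M i.1 j.1 ≠ 0 := fun i j h => nz _ _ i.2 j.2 (hvne h)
  have symm : ∀ i j, e i j = e j i := by
    intro i j
    simp only [e]
    simp only [hsymm i.1 j.1]
  have H1 : ∀ i j k, i ≠ j → i ≠ k → j ≠ k → e i j ≠ e i k := by
    intro i j k hij hik hjk h
    have := congrArg (fun u : (ZMod p)ˣ => (u : ZMod p)) h
    simp only [hev _ _ (hnz i j hij), hev _ _ (hnz i k hik)] at this
    exact dist _ _ _ i.2 j.2 k.2 (hvne hjk) this
  have H2 : ∀ i k j l, i ≠ k → j ≠ l → i ≠ j → i ≠ l → k ≠ j → k ≠ l →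
      e i j * e k l ≠ e i l * e k j := by
    intro i k j l hik hjl hij hil hkj hkl h
    have := congrArg (fun u : (ZMod p)ˣ => (u : ZMod p)) h
    simp only [Units.val_mul, hev _ _ (hnz i j hij), hev _ _ (hnz i l hil),
      hev _ _ (hnz k j hkj), hev _ _ (hnz k l hkl)] at this
    exact minor _ _ _ _ (hvne hik) (hvne hjl) this
  have hwilson : ∏ x : (ZMod p)ˣ, x = -1 := FiniteField.prod_univ_units_id_eq_neg_one
  have hneg : (-1 : (ZMod p)ˣ) ≠ 1 := by
    intro h
    have := congrArg (fun u : (ZMod p)ˣ => (u : ZMod p)) h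
    simp only [Units.val_neg, Units.val_one] at this
    have hF : Fact (2 < p) := ⟨by omega⟩
    exact ZMod.neg_one_ne_one this
  let L : V := ⟨⟨p - 1, by omega⟩, by show p - 1 ≠ 0; omega⟩
  have hLval : ∀ i : V, i ≠ L → i.1.val + 1 ≠ p := by
    intro i hi h
    apply hi
    apply Subtype.ext
    apply Fin.ext
    show i.1.val = p - 1
    omega
  by_cases hLL : M L.1 L.1 = 0
  · obtain ⟨f, hf1, hf2, hf3⟩ := core hcard heven e symm H1 H2 (-1) hwilson hneg
    exact cyclic_false hp5 f hf1 hf2 hf3
  · apply typeB_false hcard heven e symm H1 H2 L ?_ ?_ (-1) hwilson (by rw [hcardV]; omega)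
    · intro j hj h
      have := congrArg (fun u : (ZMod p)ˣ => (u : ZMod p)) h
      simp only [hev _ _ (hnz L j (Ne.symm hj)), hev _ _ hLL] at this
      exact dist _ _ _ L.2 j.2 L.2 (hvne hj) this
    · intro i j hi hj hij h
      have := congrArg (fun u : (ZMod p)ˣ => (u : ZMod p)) h
      simp only [Units.val_mul, hev _ _ (hnz i j hij), hev _ _ hLL,
        hev _ _ (hnz i L hi), hev _ _ (hnz L j (Ne.symm hj))] at this
      exact minor _ _ _ _ (hvne hi) (hvne hj) this

end Pool.Agent.Results.MP_e1f2d0_co.NoSymmetricAONT
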